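import Pool.Agent.N963.GN.NewfL

set_option autoImplicit false

/-!
# L-functions of elliptic curves: no preimages under hyperbolicity preservers

Let `E` be an elliptic curve over `ℚ` with completed L-function `Λ(s)`, `Λ(2 - s) = w Λ(s)`. Put `Ξ(z) = κ Λ(1 + i z)` with
`κ² = w`, a real entire function. The Riemann hypothesis for `L(E, s)` says that all zeros of `Ξ` are real.
Let `φ` be a function of the Laguerre-Pólya class. The operator `φ(D) = ∑ φ_n D^n` does not increase the number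
of non-real zeros of real entire functions of order less than two (Pólya, Benz, de Bruijn).

We show that `Ξ` is not of the form `φ(D) G`, where `φ` has at least one zero and `G` is a real entire function
of order less than two with only finitely many non-real zeros. The second part makes preimages explicit
for `φ(s) = exp(-λ s² + β s) ∏ (1 - r_k s) exp(r_k s)`: they are the averages of `Ξ` with respect to the Pólya frequency
densities. (The case of zero-free `φ`, that is `φ = exp(-λ s²)`, is Newman's conjecture for the extended Selberg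
class, proved by Dobner after Rodgers and Tao.)
-/

namespace Pool.Agent.N963.Shelf.LPPell

open UpperHalfPlane hiding I
open Complex Filter Polynomial MeasureTheory MatrixGroups CongruenceSubgroup

/-- The coefficient `a_p` of `E : y² = x³ + a x + b` at a prime `p ∤ 2 (4a³ + 27b²)`: `p` minus the
number of pairs `(x, y)` modulo `p` with `y² ≡ x³ + a x + b (mod p)`. -/
noncomputable def ap (a b : ℤ) (p : ℕ) : ℤ :=
  (p : ℤ) - (((Finset.range p ×ˢ Finset.range p).filter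
    (fun xy : ℕ × ℕ => (p : ℤ) ∣ (xy.2 : ℤ) ^ 2 -
      ((xy.1 : ℤ) ^ 3 + a * (xy.1 : ℤ) + b))).card : ℤ)

/-- The `n`-th Fourier coefficient of `f`. -/
noncomputable def coef {N : ℕ} (f : CuspForm (Gamma0 N : Subgroup (GL (Fin 2) ℝ)) 2) (n : ℕ) : ℂ :=
  (qExpansion 1 f).coeff n

/-- `f ∈ S_2(Γ₀(N))` is the newform of the elliptic curve `E : y² = x³ + a x + b` of conductor `N` and
root number `w`: the Fourier coefficients `c(n)` of `f` are real with `c(1) = 1`, they satisfy the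
Hecke relations `c(mn) = c(m) c(n)` for coprime `m`, `n` and `c(p^(j+2)) = c(p) c(p^(j+1)) - p c(p^j)`
(without the last term if `p ∣ N`), `f(-1/(Nτ)) = -w N τ² f(τ)`, `c(p) = a_p(E)` for all primes
`p ∤ 2 (4a³ + 27b²)`, `|c(p)| ≤ 2 √p` for all `p ∤ N` (Hasse) and `c(p) = 0, 1, -1` for `p ∣ N`.
By the modularity theorem (Wiles, Taylor-Wiles, Breuil-Conrad-Diamond-Taylor) it exists for every `E`. -/
structure IsFormOf (a b : ℤ) (N : ℕ) (f : CuspForm (Gamma0 N : Subgroup (GL (Fin 2) ℝ)) 2) (w : ℝ) :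
    Prop where
  one : coef f 1 = 1
  real : ∀ n, (coef f n).im = 0
  mul : ∀ m n : ℕ, Nat.Coprime m n → coef f (m * n) = coef f m * coef f n
  pow : ∀ p j : ℕ, p.Prime → coef f (p ^ (j + 2)) = coef f p * coef f (p ^ (j + 1)) -
      (if p ∣ N then 0 else (p : ℂ) * coef f (p ^ j))
  sign : w = 1 ∨ w = -1
  fricke : ∀ τ τ' : ℍ, (τ' : ℂ) * ((N : ℂ) * (τ : ℂ)) = -1 →
    f τ' = -(w : ℂ) * (N : ℂ) * (τ : ℂ) ^ 2 * f τ
  points : ∀ p : ℕ, p.Prime → ¬ (p : ℤ) ∣ 2 * (4 * a ^ 3 + 27 * b ^ 2) → coef f p = (ap a b p : ℂ)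
  good : ∀ p : ℕ, p.Prime → ¬ p ∣ N → ‖coef f p‖ ≤ 2 * Real.sqrt p
  bad : ∀ p : ℕ, p.Prime → p ∣ N → coef f p = 0 ∨ coef f p = 1 ∨ coef f p = -1

/-- `Λ` is the completed L-function of `f`: it is entire and
`Λ(s) = N^(s/2) (2π)^(-s) Γ(s) ∑ c(n) n^(-s)` for `Re s > 2`. -/
def IsCompleted {N : ℕ} (f : CuspForm (Gamma0 N : Subgroup (GL (Fin 2) ℝ)) 2) (Λ : ℂ → ℂ) : Prop :=
  Differentiable ℂ Λ ∧ ∀ s : ℂ, 2 < s.re →
    Λ s = ((Real.sqrt N / (2 * Real.pi) : ℝ) : ℂ) ^ s * Complex.Gamma s *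
      ∑' n : ℕ, coef f (n + 1) * ((n + 1 : ℕ) : ℂ) ^ (-s)

/-- The Laguerre-Pólya class: the functions, not identically zero, that are locally uniform limits of real
polynomials all of whose complex zeros are real. -/
def LaguerrePolya (φ : ℂ → ℂ) : Prop := (∃ z, φ z ≠ 0) ∧ ∃ Q : ℕ → ℝ[X],
  (∀ (N : ℕ) (w : ℂ), aeval w (Q N) = 0 → w.im = 0) ∧
    TendstoLocallyUniformly (fun (N : ℕ) (w : ℂ) => aeval w (Q N)) φ atTop

/-- `φ(D) G = F`: the series `∑ φ_n G^(n)(z)`, `φ(s) = ∑ φ_n s^n`, converges to `F z` for every `z`. -/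
def OperatorEq (φ G F : ℂ → ℂ) : Prop := ∀ z : ℂ, HasSum (fun n : ℕ =>
  iteratedDeriv n φ 0 / (n.factorial : ℂ) * iteratedDeriv n G z) (F z)

/-- `S(u) = exp(λ u² + i β u) ∏ (1 - i r_k u) exp(i r_k u)`. If `λ ≥ 0`, `∑ r_k² < ∞` and not all `r_k` are zero, `1 / S` is
the Fourier transform of a Pólya frequency density; all of them but the Gaussian ones are obtained (Schoenberg). -/
noncomputable def S (lam β : ℝ) (r : ℕ → ℝ) (u : ℝ) : ℂ :=
  cexp (lam * u ^ 2 + I * β * u) * ∏' k, ((1 - I * r k * u) * cexp (I * r k * u))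

/-- The average of `Ξ(z) = κ Λ(1 + i z)` over real translations with respect to a Pólya frequency density: the
Fourier transform of `Ξ` is `κ f(i e^u / √N) e^u`. -/
noncomputable def Average {N : ℕ} (f : CuspForm (Gamma0 N : Subgroup (GL (Fin 2) ℝ)) 2) (κ : ℂ)
    (lam β : ℝ) (r : ℕ → ℝ) (z : ℂ) : ℂ :=
  ∫ u : ℝ, κ * f (ofComplex (I * cexp u / (Real.sqrt N : ℝ))) * cexp u / S lam β r u * cexp (I * z * u)

variable {N : ℕ} [NeZero N] {f : CuspForm (Gamma0 N : Subgroup (GL (Fin 2) ℝ)) 2} {w : ℝ}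

theorem mf {a b : ℤ} (hf : IsFormOf a b N f w) {κ : ℂ} (hκ : κ ^ 2 = w) :
    Pool.Agent.N963.GN.MF N 2 (fun τ => f (ofComplex τ)) (fun n => coef f n) κ := by
  have hN : 0 < Real.sqrt N := Real.sqrt_pos.2 (by exact_mod_cast Nat.pos_of_ne_zero (NeZero.ne N))
  have hNc : ((Real.sqrt N : ℝ) : ℂ) ≠ 0 := by exact_mod_cast hN.ne'
  have hsq : ((Real.sqrt N : ℝ) : ℂ) ^ 2 = N := by
    have : Real.sqrt N ^ 2 = N := Real.sq_sqrt (Nat.cast_nonneg N)
    exact_mod_cast this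
  have him : ∀ u : ℝ, 0 < (I * cexp (u : ℂ) / ((Real.sqrt N : ℝ) : ℂ)).im := by
    intro u
    have hpt : I * cexp (u : ℂ) / ((Real.sqrt N : ℝ) : ℂ) = I * ((Real.exp u / Real.sqrt N : ℝ) : ℂ) := by
      push_cast
      ring
    rw [hpt, Complex.I_mul_im, Complex.ofReal_re]
    positivity
  refine Pool.Agent.N963.GN.mf_of (k := 2) (by norm_num) f ?_ hf.sign
    (Pool.Agent.N963.GN.real_of_coeff (k := 2) f hf.real) ?_ hκ
  · have h1 : (qExpansion 1 f).coeff 1 = 1 := hf.one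
    rw [h1]
    exact one_ne_zero
  · intro u
    have h1 := hf.fricke (ofComplex (I * cexp (u : ℂ) / ((Real.sqrt N : ℝ) : ℂ)))
      (ofComplex (I * cexp ((-u : ℝ) : ℂ) / ((Real.sqrt N : ℝ) : ℂ))) (by
        rw [ofComplex_apply_of_im_pos (him u), ofComplex_apply_of_im_pos (him (-u))]
        simp only
        have h2 : cexp ((-u : ℝ) : ℂ) * cexp (u : ℂ) = 1 := by
          rw [← Complex.exp_add]
          push_cast
          rw [neg_add_cancel, Complex.exp_zero]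
        rw [← hsq]
        field_simp
        linear_combination (I ^ 2) * h2 + Complex.I_sq)
    rw [h1, ofComplex_apply_of_im_pos (him u)]
    simp only
    have h3 : cexp (((2 : ℕ) : ℂ) * u) = cexp (u : ℂ) ^ 2 := by
      rw [← Complex.exp_nat_mul]
    rw [h3, div_pow, mul_pow, hsq, Complex.I_sq]
    have hN0 : (N : ℂ) ≠ 0 := by exact_mod_cast NeZero.ne N
    field_simp

theorem result {a b : ℤ} (hf : IsFormOf a b N f w) {Λ : ℂ → ℂ} (hΛ : IsCompleted f Λ) {κ : ℂ} (hκ : κ ^ 2 = w) :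
    (∀ φ : ℂ → ℂ, LaguerrePolya φ → (∃ s, φ s = 0) →
      ∀ G : ℂ → ℂ, Differentiable ℂ G → (∀ x : ℝ, (G x).im = 0) →
        (∃ C ρ : ℝ, ρ < 2 ∧ ∀ z : ℂ, ‖G z‖ ≤ Real.exp (C * (1 + ‖z‖) ^ ρ)) →
        OperatorEq φ G (fun z => κ * Λ (1 + I * z)) → {z : ℂ | G z = 0 ∧ z.im ≠ 0}.Infinite) ∧
    (∀ z : ℂ, Average f κ 0 0 0 z = κ * Λ (1 + I * z)) ∧
    ∀ (lam β : ℝ) (r : ℕ → ℝ), 0 ≤ lam → Summable (fun k => r k ^ 2) → (∃ k, r k ≠ 0) →
      {z : ℂ | Average f κ lam β r z = 0 ∧ z.im ≠ 0}.Infinite := by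
  have hm := mf hf hκ
  have hLt : ∀ z, Pool.Agent.N963.GN.Lt (fun u : ℝ => Pool.Agent.N963.GN.Km N 2
      (fun τ => f (ofComplex τ)) κ (u : ℂ)) z = κ * Λ (1 + I * z) := by
    intro z
    rw [Pool.Agent.N963.GN.Lt_eq_Lam hm hΛ.1 hΛ.2 z]
    congr 2
    push_cast
    ring
  have hav : ∀ (lam β : ℝ) (r : ℕ → ℝ), Average f κ lam β r = Pool.Agent.N963.GN.Lt (fun u : ℝ =>
      Pool.Agent.N963.GN.Km N 2 (fun τ => f (ofComplex τ)) κ (u : ℂ) / Pool.Agent.N963.GN.Sf lam β r u) := by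
    intro lam β r
    funext z
    unfold Average Pool.Agent.N963.GN.Lt Pool.Agent.N963.GN.Km
    refine integral_congr_ae (Eventually.of_forall fun u => ?_)
    simp only
    have e : (((2 : ℕ) : ℂ) * (u : ℂ) / 2) = (u : ℂ) := by
      push_cast
      ring
    rw [e]
    rfl
  refine ⟨?_, ?_, ?_⟩
  · intro φ hφ hφ1 G hG hs hgr hop
    refine Pool.Agent.N963.GN.opM' hm hφ hφ1 hG (Pool.Agent.N963.GN.sym_of_real' hG hs) ?_ (fun z => ?_)
    · obtain ⟨C, ρ, hρ, h⟩ := hgr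
      refine ⟨|C|, max ρ 0, abs_nonneg _, le_max_right _ _, max_lt hρ (by norm_num), fun z => (h z).trans ?_⟩
      rw [Real.exp_le_exp]
      have h1 : 1 ≤ 1 + ‖z‖ := by linarith [norm_nonneg z]
      have h2 : 0 ≤ (1 + ‖z‖) ^ ρ := Real.rpow_nonneg (by linarith) _
      calc C * (1 + ‖z‖) ^ ρ ≤ |C| * (1 + ‖z‖) ^ ρ := mul_le_mul_of_nonneg_right (le_abs_self C) h2
        _ ≤ |C| * (1 + ‖z‖) ^ (max ρ 0) := mul_le_mul_of_nonneg_left
            (Real.rpow_le_rpow_of_exponent_le h1 (le_max_left _ _)) (abs_nonneg _)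
    · rw [hLt z]
      exact hop z
  · intro z
    rw [hav, ← hLt z]
    congr 1
    funext u
    simp [Pool.Agent.N963.GN.Sf]
  · intro lam β r hlam hr h
    rw [hav]
    exact Pool.Agent.N963.GN.avM hm hlam hr h

end Pool.Agent.N963.Shelf.LPPell
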